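import Mathlib

set_option autoImplicit false

/-!
# Iterated group jumps need not be single group jumps

For infinite countable groups `G` and `H`, the `H`-jump of the `G`-jump of the equality relation of
a Polish space with at least two points is not Borel reducible to any equivalence relation with
countable classes, while all group jumps of equality have countable classes.
-/

namespace Pool.Agent.Results.MP_9b97c3_lc.DoubleJump

open Set Filter Topology MeasureTheory

universe u v w u' v'

/-- The `G`-jump of `E`. -/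
def Jump {X : Type u} (G : Type v) [Group G] (E : X → X → Prop) : (G → X) → (G → X) → Prop :=
  fun α β => ∃ g : G, ∀ h : G, E (α (g⁻¹ * h)) (β h)

/-- `E` is Borel reducible to `F`. -/
def BorelReducible {X : Type u} {Y : Type v} [TopologicalSpace X] [TopologicalSpace Y]
    (E : X → X → Prop) (F : Y → Y → Prop) : Prop :=
  ∃ f : X → Y, Measurable[borel X, borel Y] f ∧ ∀ x x' : X, E x x' ↔ F (f x) (f x')

section Category

/-- One half of the Kuratowski-Ulam theorem. -/
theorem ku {A : Type u} {B : Type v} [TopologicalSpace A] [TopologicalSpace B]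
    [SecondCountableTopology B] {P : A × B → Prop} (hP : ∀ᶠ q in residual (A × B), P q) :
    ∀ᶠ a in residual A, ∀ᶠ b in residual B, P (a, b) := by
  obtain ⟨T, hT1, hT2, hT3, hT4⟩ := mem_residual_iff.1 hP
  have h1 : ∀ t ∈ T, ∀ᶠ a in residual A, ∀ᶠ b in residual B, (a, b) ∈ t := by
    intro t ht
    have hto := hT1 t ht
    have htd := hT2 t ht
    obtain ⟨bs, hbc, hbe, hb⟩ := TopologicalSpace.exists_countable_basis B
    have h2 : ∀ V ∈ bs, ∀ᶠ a in residual A, ∃ b ∈ V, (a, b) ∈ t := by
      intro V hV
      have hVo := hb.isOpen hV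
      have hVn : V.Nonempty := by
        rw [nonempty_iff_ne_empty]
        rintro rfl
        exact hbe hV
      have e : {a : A | ∃ b ∈ V, (a, b) ∈ t} = Prod.fst '' (t ∩ (univ ×ˢ V)) := by
        ext a
        constructor
        · rintro ⟨b, hb1, hb2⟩
          exact ⟨(a, b), ⟨hb2, mem_univ _, hb1⟩, rfl⟩
        · rintro ⟨⟨a', b⟩, ⟨hb2, -, hb1⟩, rfl⟩
          exact ⟨b, hb1, hb2⟩
      have ho : IsOpen {a : A | ∃ b ∈ V, (a, b) ∈ t} := by
        rw [e]
        exact isOpenMap_fst _ (hto.inter (isOpen_univ.prod hVo))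
      have hd : Dense {a : A | ∃ b ∈ V, (a, b) ∈ t} := by
        rw [dense_iff_inter_open]
        intro W hW hWn
        obtain ⟨⟨a, b⟩, h3, h4⟩ := htd.inter_open_nonempty (W ×ˢ V) (hW.prod hVo) (hWn.prod hVn)
        exact ⟨a, h3.1, b, h3.2, h4⟩
      exact residual_of_dense_open ho hd
    have h3 : ∀ᶠ a in residual A, ∀ V ∈ bs, ∃ b ∈ V, (a, b) ∈ t :=
      (eventually_countable_ball hbc).2 h2
    filter_upwards [h3] with a ha
    have ho : IsOpen {b : B | (a, b) ∈ t} := hto.preimage (Continuous.prodMk_right a)
    have hd : Dense {b : B | (a, b) ∈ t} := by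
      rw [hb.dense_iff]
      intro V hV _
      obtain ⟨b, hb1, hb2⟩ := ha V hV
      exact ⟨b, hb1, hb2⟩
    exact residual_of_dense_open ho hd
  have h2 : ∀ᶠ a in residual A, ∀ t ∈ T, ∀ᶠ b in residual B, (a, b) ∈ t :=
    (eventually_countable_ball hT3).2 h1
  filter_upwards [h2] with a ha
  have h3 : ∀ᶠ b in residual B, ∀ t ∈ T, (a, b) ∈ t := (eventually_countable_ball hT3).2 ha
  filter_upwards [h3] with b hb
  exact hT4 (fun t ht => hb t ht)

/-- A nonempty open set contains a generic point. -/
theorem exists_generic {A : Type u} [TopologicalSpace A] [BaireSpace A] {P : A → Prop}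
    (hP : ∀ᶠ a in residual A, P a) {U : Set A} (hU : IsOpen U) (hn : U.Nonempty) :
    ∃ a ∈ U, P a := by
  obtain ⟨a, h1, h2⟩ := (dense_of_mem_residual hP).inter_open_nonempty U hU hn
  exact ⟨a, h1, h2⟩

end Category

section Main

variable {G : Type v} {H : Type w} [Group G]

/-- The full product `H → G` acts on `H → G → Bool` by shifting all rows. -/
def act (γ : H → G) (z : H → G → Bool) : H → G → Bool := fun h g => z h ((γ h)⁻¹ * g)

theorem act_act (γ δ : H → G) (z : H → G → Bool) :
    act γ (act δ z) = act (fun h => γ h * δ h) z := by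
  funext h g
  simp only [act, mul_inv_rev, mul_assoc]

/-- The product element acting only in the row `h0`. -/
noncomputable def single (h0 : H) (g : G) : H → G :=
  open scoped Classical in fun h => if h = h0 then g else 1

/-- shift of a single row -/
def sh (g : G) (u : G → Bool) : G → Bool := fun x => u (g⁻¹ * x)

theorem act_single_same (h0 : H) (g : G) (z : H → G → Bool) : act (single h0 g) z h0 = sh g (z h0) := by
  funext x
  simp [act, single, sh]

theorem act_single_ne (h0 : H) (g : G) (z : H → G → Bool) {h : H} (hh : h ≠ h0) :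
    act (single h0 g) z h = z h := by
  funext x
  simp [act, single, hh]

section top

variable [TopologicalSpace G] [DiscreteTopology G]

theorem continuous_act : Continuous fun q : (H → G → Bool) × (H → G) => act q.2 q.1 := by
  refine continuous_pi fun h => continuous_pi fun g => ?_
  have h1 : Continuous fun p : (G → Bool) × G => p.1 (p.2⁻¹ * g) := by
    rw [continuous_prod_of_discrete_right]
    intro b
    exact (continuous_apply (b⁻¹ * g) : Continuous fun p : G → Bool => p (b⁻¹ * g))
  have h2 : Continuous fun q : (H → G → Bool) × (H → G) => (q.1 h, q.2 h) :=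
    ((continuous_apply h : Continuous fun z : H → G → Bool => z h).comp continuous_fst).prodMk
      ((continuous_apply h : Continuous fun z : H → G => z h).comp continuous_snd)
  exact h1.comp h2

/-- shifting a row, as a homeomorphism of the space -/
def actHomeo (γ : H → G) : (H → G → Bool) ≃ₜ (H → G → Bool) where
  toFun := act γ
  invFun := act (fun h => (γ h)⁻¹)
  left_inv z := by
    rw [act_act]
    funext h g
    simp [act]
  right_inv z := by
    rw [act_act]
    funext h g
    simp [act]
  continuous_toFun := continuous_act.comp (Continuous.prodMk_left γ)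
  continuous_invFun := continuous_act.comp (Continuous.prodMk_left _)

/-- right multiplication on the product group -/
def mulRightHomeo (δ : H → G) : (H → G) ≃ₜ (H → G) where
  toFun := fun γ h => γ h * δ h
  invFun := fun γ h => γ h * (δ h)⁻¹
  left_inv γ := by
    funext h
    simp
  right_inv γ := by
    funext h
    simp
  continuous_toFun := continuous_pi fun h =>
    (continuous_of_discreteTopology (f := fun g : G => g * δ h)).comp (continuous_apply h)
  continuous_invFun := continuous_pi fun h =>
    (continuous_of_discreteTopology (f := fun g : G => g * (δ h)⁻¹)).comp (continuous_apply h)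

end top

section rel

variable [Group H]

/-- the double jump relation on two-valued functions, in a more convenient form -/
def R (z z' : H → G → Bool) : Prop := ∃ k : H, ∀ h : H, ∃ g : G, sh g (z (k⁻¹ * h)) = z' h

theorem R_iff (z z' : H → G → Bool) : Jump H (Jump G (fun a b : Bool => a = b)) z z' ↔ R z z' := by
  unfold Jump R sh
  simp only [funext_iff]

theorem R_act (γ : H → G) (z : H → G → Bool) : R z (act γ z) := by
  refine ⟨1, fun h => ⟨γ h, ?_⟩⟩
  funext x
  simp [sh, act]

end rel

section core

variable [TopologicalSpace G] [DiscreteTopology G] [Countable G] [Countable H] [Infinite G]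
  [Infinite H]

/-- the basic open subset of the product group given by finitely many values -/
def bas (t : Σ S : Finset H, (S → G)) : Set (H → G) := {γ | ∀ h : t.1, γ h = t.2 h}

theorem isOpen_bas (t : Σ S : Finset H, (S → G)) : IsOpen (bas t) := by
  have : bas t = ⋂ h : t.1, {γ : H → G | γ h = t.2 h} := by
    ext γ
    simp [bas]
  rw [this]
  refine isOpen_iInter_of_finite fun h => ?_
  exact (isOpen_discrete ({t.2 h} : Set G)).preimage
    (continuous_apply (h : H) : Continuous fun z : H → G => z h)

theorem bas_nonempty (t : Σ S : Finset H, (S → G)) : (bas t).Nonempty := by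
  classical
  refine ⟨fun h => if hh : h ∈ t.1 then t.2 ⟨h, hh⟩ else 1, ?_⟩
  intro h
  simp

theorem exists_bas {O : Set (H → G)} (hO : IsOpen O) (hn : O.Nonempty) : ∃ t, bas t ⊆ O := by
  obtain ⟨γ, hγ⟩ := hn
  obtain ⟨I, u, hu, hsub⟩ := isOpen_pi_iff.mp hO γ hγ
  refine ⟨⟨I, fun h => γ h⟩, fun δ hδ => hsub ?_⟩
  intro i hi
  rw [hδ ⟨i, hi⟩]
  exact (hu i hi).2

/-- A map with countable range on the product group, Borel: constant near a generic point. -/
theorem exists_const (Ψ : (H → G) → (ℕ → Bool)) (hΨ : @Measurable _ _ (borel _) _ Ψ)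
    (hc : (range Ψ).Countable) :
    ∃ (t : Σ S : Finset H, (S → G)) (y : ℕ → Bool), ∀ᶠ γ in residual (H → G), γ ∈ bas t → Ψ γ = y := by
  let : MeasurableSpace (H → G) := borel _
  have : BorelSpace (H → G) := ⟨rfl⟩
  have hcov : ¬ ∀ y ∈ range Ψ, ∀ᶠ γ in residual (H → G), Ψ γ ≠ y := by
    intro h
    have h1 := (eventually_countable_ball hc).2 h
    obtain ⟨γ, -, hγ⟩ := exists_generic h1 isOpen_univ ⟨fun _ => 1, mem_univ _⟩
    exact hγ _ ⟨γ, rfl⟩ rfl
  push Not at hcov
  obtain ⟨y, -, hy⟩ := hcov
  have hm : MeasurableSet {γ | Ψ γ = y} := hΨ (measurableSet_singleton y)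
  obtain ⟨O, hO, hA⟩ := hm.residualEq_isOpen
  have hOn : O.Nonempty := by
    rw [nonempty_iff_ne_empty]
    rintro rfl
    apply hy
    filter_upwards [hA] with γ hγ hh
    have : γ ∈ (∅ : Set (H → G)) := hγ.mp hh
    exact this
  obtain ⟨t, ht⟩ := exists_bas hO hOn
  refine ⟨t, y, ?_⟩
  filter_upwards [hA] with γ hγ hh
  exact hγ.mpr (ht hh)

/-- The shift of an infinite group is topologically transitive. -/
theorem exists_sh_mem {U V : Set (G → Bool)} (hU : IsOpen U) (hV : IsOpen V) (hUn : U.Nonempty)
    (hVn : V.Nonempty) : ∃ (v : G → Bool) (g : G), v ∈ U ∧ sh g v ∈ V := by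
  classical
  obtain ⟨p, hp⟩ := hUn
  obtain ⟨q, hq⟩ := hVn
  obtain ⟨I, u, hu, hsubU⟩ := isOpen_pi_iff.mp hU p hp
  obtain ⟨J, w, hw, hsubV⟩ := isOpen_pi_iff.mp hV q hq
  -- choose `g` with `I` and `g⁻¹ J` disjoint
  obtain ⟨g, hg⟩ : ∃ g : G, ∀ i ∈ I, ∀ j ∈ J, g⁻¹ * j ≠ i := by
    obtain ⟨g, hg⟩ := Infinite.exists_notMem_finset (Finset.image₂ (fun i j => j * i⁻¹) I J : Finset G)
    refine ⟨g, fun i hi j hj h => hg ?_⟩
    rw [Finset.mem_image₂]
    refine ⟨i, hi, j, hj, ?_⟩
    rw [← h]
    group
  refine ⟨fun x => if x ∈ I then p x else q (g * x), g, hsubU ?_, hsubV ?_⟩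
  · intro i hi
    have : i ∈ I := hi
    simp only [this, if_true]
    exact (hu i hi).2
  · intro j hj
    have : g⁻¹ * j ∉ I := fun h => hg _ h j hj rfl
    simp only [sh, this, if_false, mul_inv_cancel_left]
    exact (hw j hj).2

/-- The two-coordinate twist. -/
noncomputable def twist (δ : H → G) : ((H → G → Bool) × (H → G)) ≃ₜ ((H → G → Bool) × (H → G)) :=
  (actHomeo δ).prodCongr (mulRightHomeo (fun h => (δ h)⁻¹))

theorem act_twist (δ : H → G) (q : (H → G → Bool) × (H → G)) :
    act (twist δ q).2 (twist δ q).1 = act q.2 q.1 := by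
  show act (fun h => q.2 h * (δ h)⁻¹) (act δ q.1) = _
  rw [act_act]
  congr 1
  funext h
  group

theorem act_update (g : G) (z : H → G → Bool) (h0 : H) (v : G → Bool) [DecidableEq H] :
    act (single h0 g) (Function.update z h0 v) = Function.update z h0 (sh g v) := by
  funext h
  by_cases hh : h = h0
  · subst hh
    rw [act_single_same]
    simp
  · rw [act_single_ne _ _ _ hh]
    simp [hh]

/-- The category argument: there is no Borel map with countable range on orbits of the full product
whose fibres are contained in the double jump classes. -/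
theorem no_map [Group H] (Φ : (H → G → Bool) → (ℕ → Bool)) (hΦ : @Measurable _ _ (borel _) _ Φ)
    (hc : ∀ z, (range fun γ : H → G => Φ (act γ z)).Countable)
    (hR : ∀ z z', Φ z = Φ z' → R z z') : False := by
  classical
  let : MeasurableSpace (H → G → Bool) := borel _
  have : BorelSpace (H → G → Bool) := ⟨rfl⟩
  let : MeasurableSpace (H → G) := borel _
  have : BorelSpace (H → G) := ⟨rfl⟩
  let : MeasurableSpace ((H → G → Bool) × (H → G)) := borel _
  have : BorelSpace ((H → G → Bool) × (H → G)) := ⟨rfl⟩
  -- the Borel sets and their open approximations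
  have hB : ∀ (n : ℕ) (b : Bool),
      MeasurableSet {q : (H → G → Bool) × (H → G) | Φ (act q.2 q.1) n = b} := by
    intro n b
    have h1 : Measurable fun q : (H → G → Bool) × (H → G) => act q.2 q.1 :=
      continuous_act.measurable
    exact ((measurable_pi_apply n).comp (hΦ.comp h1)) (measurableSet_singleton b)
  choose O hO hOB using fun (n : ℕ) (b : Bool) => (hB n b).residualEq_isOpen
  have hgood0 : ∀ᶠ q in residual ((H → G → Bool) × (H → G)), ∀ n b,
      (Φ (act q.2 q.1) n = b ↔ q ∈ O n b) := by
    rw [eventually_countable_forall]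
    intro n
    rw [eventually_countable_forall]
    intro b
    filter_upwards [hOB n b] with q hq
    exact Iff.of_eq hq
  have hgood : ∀ᶠ z in residual (H → G → Bool), ∀ᶠ γ in residual (H → G), ∀ n b,
      (Φ (act γ z) n = b ↔ (z, γ) ∈ O n b) := ku hgood0
  -- the closed sets
  set A : (Σ S : Finset H, (S → G)) → Set (H → G → Bool) := fun t =>
    {z | ∀ n, ∃ b, ∀ γ ∈ bas t, (z, γ) ∉ O n b} with hAdef
  have hAclosed : ∀ t, IsClosed (A t) := by
    intro t
    have e : A t = ⋂ n, ⋃ b, ⋂ γ ∈ bas t, {z | (z, γ) ∉ O n b} := by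
      ext z
      simp [hAdef]
    rw [e]
    refine isClosed_iInter fun n => isClosed_iUnion_of_finite fun b => isClosed_biInter fun γ _ => ?_
    exact ((hO n b).preimage (Continuous.prodMk_left γ)).isClosed_compl
  have hcover : ∀ᶠ z in residual (H → G → Bool), ∃ t, z ∈ A t := by
    filter_upwards [hgood] with z hz
    have hmeas : @Measurable _ _ (borel _) _ (fun γ : H → G => Φ (act γ z)) := by
      have h1 : Measurable fun γ : H → G => act γ z :=
        (continuous_act.comp (Continuous.prodMk_right z)).measurable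
      exact hΦ.comp h1
    obtain ⟨t, y, hy⟩ := exists_const _ hmeas (hc z)
    refine ⟨t, fun n => ⟨!(y n), fun γ hγ hmem => ?_⟩⟩
    have hopen : IsOpen {γ : H → G | γ ∈ bas t ∧ (z, γ) ∈ O n (!(y n))} :=
      (isOpen_bas t).inter ((hO n _).preimage (Continuous.prodMk_right z))
    obtain ⟨γ', ⟨h1, h2⟩, h3, h4⟩ := exists_generic (hz.and hy) hopen ⟨γ, hγ, hmem⟩
    have h5 := (h3 n _).2 h2
    rw [h4 h1] at h5
    cases hyn : y n <;> simp [hyn] at h5
  obtain ⟨t, W', hW'o, hW'n, hW'⟩ : ∃ t, ∃ W' : Set (H → G → Bool), IsOpen W' ∧ W'.Nonempty ∧ W' ⊆ A t := by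
    by_contra hcon
    push Not at hcon
    have h1 : ∀ᶠ z in residual (H → G → Bool), ∀ t, z ∉ A t := by
      rw [eventually_countable_forall]
      intro t
      refine residual_of_dense_open (hAclosed t).isOpen_compl ?_
      show Dense (A t)ᶜ
      rw [← interior_eq_empty_iff_dense_compl]
      by_contra hne
      exact hcon t _ isOpen_interior (nonempty_iff_ne_empty.2 hne) interior_subset
    obtain ⟨z, -, h2, t, h3⟩ := exists_generic (h1.and hcover) isOpen_univ ⟨fun _ _ => true, mem_univ _⟩
    exact h2 t h3
  -- a basic open set and a free coordinate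
  obtain ⟨z0, hz0⟩ := hW'n
  obtain ⟨I, u, hu, hsub⟩ := isOpen_pi_iff.mp hW'o z0 hz0
  obtain ⟨h0, hh0⟩ := Infinite.exists_notMem_finset (I ∪ t.1)
  rw [Finset.mem_union, not_or] at hh0
  obtain ⟨hh0I, hh0t⟩ := hh0
  set W : Set (H → G → Bool) := {z | ∀ i ∈ I, z i ∈ u i} with hWdef
  have hWA : W ⊆ A t := fun z hz => hW' (hsub fun i hi => hz i hi)
  have hWo : IsOpen W := by
    have : W = ⋂ i ∈ I, {z : H → G → Bool | z i ∈ u i} := by
      ext z
      simp [hWdef]
    rw [this]
    refine isOpen_biInter_finset fun i hi => ?_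
    exact (hu i hi).1.preimage (continuous_apply i : Continuous fun z : H → G → Bool => z i)
  have hWn : W.Nonempty := ⟨z0, fun i hi => (hu i hi).2⟩
  have hWup : ∀ z ∈ W, ∀ v, Function.update z h0 v ∈ W := by
    intro z hz v i hi
    have : i ≠ h0 := by
      rintro rfl
      exact hh0I hi
    rw [Function.update_of_ne this]
    exact hz i hi
  have hbast : ∀ (g : G) (γ : H → G), γ ∈ bas t → (fun h => γ h * (single h0 g h)⁻¹) ∈ bas t := by
    intro g γ hγ h
    have : (h : H) ≠ h0 := by
      rintro h1
      exact hh0t (h1 ▸ h.2)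
    simp only [single, this, if_false, inv_one, mul_one]
    exact hγ h
  -- the claim
  have claim : ∀ z ∈ W, ∀ v, ∀ n, ∀ b, (∃ γ ∈ bas t, (z, γ) ∈ O n b) →
      (∃ γ ∈ bas t, (Function.update z h0 v, γ) ∈ O n (!b)) → False := by
    intro z hz v n b h1 h2
    set V1 : Set ((H → G → Bool) × (H → G)) := O n b ∩ (W ×ˢ bas t) with hV1
    set V0 : Set ((H → G → Bool) × (H → G)) := O n (!b) ∩ (W ×ˢ bas t) with hV0
    have hV1o : IsOpen V1 := (hO n b).inter (hWo.prod (isOpen_bas t))
    have hV0o : IsOpen V0 := (hO n (!b)).inter (hWo.prod (isOpen_bas t))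
    have hcu : Continuous fun w : G → Bool => Function.update z h0 w :=
      continuous_const.update h0 continuous_id
    obtain ⟨γ1, hγ1, hm1⟩ := h1
    obtain ⟨γ0, hγ0, hm0⟩ := h2
    have hU1 : IsOpen ((fun w : G → Bool => Function.update z h0 w) ⁻¹' (Prod.fst '' V1)) :=
      (isOpenMap_fst _ hV1o).preimage hcu
    have hU0 : IsOpen ((fun w : G → Bool => Function.update z h0 w) ⁻¹' (Prod.fst '' V0)) :=
      (isOpenMap_fst _ hV0o).preimage hcu
    obtain ⟨w, g, hw1, hw0⟩ := exists_sh_mem hU1 hU0
      ⟨z h0, by
        refine ⟨(z, γ1), ⟨hm1, hz, hγ1⟩, ?_⟩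
        simp⟩
      ⟨v, (Function.update z h0 v, γ0), ⟨hm0, hWup z hz v, hγ0⟩, rfl⟩
    -- the translated open set
    set V1' : Set ((H → G → Bool) × (H → G)) := (twist (single h0 g)) '' V1 with hV1'
    have hV1'o : IsOpen V1' := (twist (single h0 g)).isOpenMap _ hV1o
    have hmeet : (Prod.fst '' V1' ∩ Prod.fst '' V0).Nonempty := by
      refine ⟨Function.update z h0 (sh g w), ?_, hw0⟩
      obtain ⟨⟨z1, γ⟩, hq, hq1⟩ := hw1
      refine ⟨twist (single h0 g) (z1, γ), ⟨_, hq, rfl⟩, ?_⟩
      have hq1' : z1 = Function.update z h0 w := hq1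
      show act (single h0 g) z1 = _
      rw [hq1', act_update]
    have hgen1 : ∀ᶠ q in residual ((H → G → Bool) × (H → G)), q ∈ V1' → Φ (act q.2 q.1) n = b := by
      have h3 : ∀ᶠ q in residual ((H → G → Bool) × (H → G)), q ∈ V1 → Φ (act q.2 q.1) n = b := by
        filter_upwards [hgood0] with q hq hqV
        exact (hq n b).2 hqV.1
      have h4 := (tendsto_residual_of_isOpenMap (twist (single h0 g)).symm.continuous
        (twist (single h0 g)).symm.isOpenMap).eventually h3
      filter_upwards [h4] with q hq hqV
      obtain ⟨q', hq', rfl⟩ := hqV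
      rw [Homeomorph.symm_apply_apply] at hq
      rw [act_twist]
      exact hq hq'
    obtain ⟨z2, ⟨⟨q1, hq1, hq1z⟩, ⟨q0, hq0, hq0z⟩⟩, h5, h6⟩ := exists_generic (hgood.and (ku hgen1))
      ((isOpenMap_fst _ hV1'o).inter (isOpenMap_fst _ hV0o)) hmeet
    have hz2W : z2 ∈ W := by
      rw [← hq0z]
      exact hq0.2.1
    obtain ⟨b', hb'⟩ := hWA hz2W n
    have hb'b : b' = b := by
      by_contra hne
      have : b' = !b := by
        cases b <;> cases b' <;> simp_all
      subst this
      refine hb' q0.2 hq0.2.2 ?_
      rw [← hq0z]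
      exact hq0.1
    subst hb'b
    have hsec : IsOpen {γ : H → G | (z2, γ) ∈ V1'} := hV1'o.preimage (Continuous.prodMk_right z2)
    obtain ⟨γ, hγV, h7, h8⟩ := exists_generic (h5.and h6) hsec ⟨q1.2, by
      show (z2, q1.2) ∈ V1'
      rw [← hq1z]
      exact hq1⟩
    have h9 : (z2, γ) ∈ O n b' := (h7 n b').1 (h8 hγV)
    refine hb' γ ?_ h9
    obtain ⟨q', hq', hq'e⟩ := hγV
    have : γ = fun h => q'.2 h * (single h0 g h)⁻¹ := by
      have := congrArg Prod.snd hq'e
      exact this.symm
    rw [this]
    exact hbast g _ hq'.2.2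
  -- choose a generic pair
  have hfst : ∀ᶠ q in residual ((H → G → Bool) × (G → Bool)), ∀ᶠ γ in residual (H → G), ∀ n b,
      (Φ (act γ q.1) n = b ↔ (q.1, γ) ∈ O n b) :=
    (tendsto_residual_of_isOpenMap continuous_fst isOpenMap_fst).eventually hgood
  let swap : ((H → G → Bool) × (G → Bool)) ≃ₜ ((H → G → Bool) × (G → Bool)) :=
    { toFun := fun q => (Function.update q.1 h0 q.2, q.1 h0)
      invFun := fun q => (Function.update q.1 h0 q.2, q.1 h0)
      left_inv := by
        rintro ⟨z, v⟩
        simp
      right_inv := by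
        rintro ⟨z, v⟩
        simp
      continuous_toFun := (continuous_fst.update h0 continuous_snd).prodMk
        ((continuous_apply h0 : Continuous fun z : H → G → Bool => z h0).comp continuous_fst)
      continuous_invFun := (continuous_fst.update h0 continuous_snd).prodMk
        ((continuous_apply h0 : Continuous fun z : H → G → Bool => z h0).comp continuous_fst) }
  have hsnd : ∀ᶠ q in residual ((H → G → Bool) × (G → Bool)), ∀ᶠ γ in residual (H → G), ∀ n b,
      (Φ (act γ (Function.update q.1 h0 q.2)) n = b ↔ (Function.update q.1 h0 q.2, γ) ∈ O n b) :=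
    (tendsto_residual_of_isOpenMap swap.continuous swap.isOpenMap).eventually hfst
  have hdiff : ∀ᶠ q in residual ((H → G → Bool) × (G → Bool)), ∀ (h : H) (g : G),
      sh g (q.1 h) ≠ q.2 := by
    rw [eventually_countable_forall]
    intro h
    rw [eventually_countable_forall]
    intro g
    have hcsh : Continuous fun q : (H → G → Bool) × (G → Bool) => sh g (q.1 h) := by
      refine continuous_pi fun x => ?_
      exact (continuous_apply (g⁻¹ * x) : Continuous fun w : G → Bool => w (g⁻¹ * x)).comp
        ((continuous_apply h : Continuous fun z : H → G → Bool => z h).comp continuous_fst)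
    refine residual_of_dense_open (isClosed_eq hcsh continuous_snd).isOpen_compl ?_
    rw [dense_iff_inter_open]
    intro U hU hUn
    by_contra hcon
    rw [not_nonempty_iff_eq_empty] at hcon
    obtain ⟨⟨z, v⟩, hzv⟩ := hUn
    have hsec : IsOpen {v' : G → Bool | (z, v') ∈ U} := hU.preimage (Continuous.prodMk_right z)
    obtain ⟨J, w, hw, hsubJ⟩ := isOpen_pi_iff.mp hsec v hzv
    obtain ⟨x, hx⟩ := Infinite.exists_notMem_finset J
    have key : ∀ b : Bool, (z, Function.update v x b) ∈ U := by
      intro b
      refine hsubJ fun j hj => ?_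
      have : j ≠ x := by
        rintro rfl
        exact hx hj
      rw [Function.update_of_ne this]
      exact (hw j hj).2
    have key2 : ∀ b : Bool, sh g (z h) = Function.update v x b := by
      intro b
      by_contra hne
      have : (z, Function.update v x b) ∈ (∅ : Set ((H → G → Bool) × (G → Bool))) := by
        rw [← hcon]
        exact ⟨key b, hne⟩
      exact this
    have := (key2 true).symm.trans (key2 false)
    have := congrFun this x
    simp at this
  obtain ⟨⟨z, v⟩, hzW, ⟨hz, hz'⟩, hzd⟩ := exists_generic ((hfst.and hsnd).and hdiff)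
    (hWo.prod isOpen_univ) (hWn.prod ⟨fun _ => true, mem_univ _⟩)
  obtain ⟨γ, hγ, h1, h2⟩ := exists_generic (hz.and hz') (isOpen_bas t) (bas_nonempty t)
  have heq : Φ (act γ z) = Φ (act γ (Function.update z h0 v)) := by
    funext n
    by_contra hne
    refine claim z hzW.1 v n (Φ (act γ z) n) ⟨γ, hγ, (h1 n _).1 rfl⟩ ⟨γ, hγ, (h2 n _).1 ?_⟩
    cases h3 : Φ (act γ z) n <;> cases h4 : Φ (act γ (Function.update z h0 v)) n <;> simp_all
  obtain ⟨k, hk⟩ := hR _ _ heq
  obtain ⟨g, hg⟩ := hk h0
  refine hzd (k⁻¹ * h0) ((γ h0)⁻¹ * (g * γ (k⁻¹ * h0))) ?_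
  funext x
  have := congrFun hg (γ h0 * x)
  simp only [sh, act, Function.update_self, inv_mul_cancel_left] at this
  simp only [sh, mul_inv_rev, inv_inv, mul_assoc]
  simpa [mul_assoc] using this

end core

end Main

/-- Double jumps of equality are not reducible to relations with countable classes. -/
theorem not_reducible (G : Type v) (H : Type w) [Group G] [Group H] [Countable G] [Countable H]
    [Infinite G] [Infinite H] (X : Type u) [TopologicalSpace X] [Nontrivial X]
    (Y : Type u') [TopologicalSpace Y] [PolishSpace Y] (F : Y → Y → Prop)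
    (hF : ∀ y, {y' | F y y'}.Countable) :
    ¬ BorelReducible (Jump H (Jump G (fun x y : X => x = y))) F := by
  rintro ⟨f, hf, hred⟩
  let : TopologicalSpace G := ⊥
  have : DiscreteTopology G := ⟨rfl⟩
  obtain ⟨a, b, hab⟩ := exists_pair_ne X
  let e : Bool → X := fun c => if c then a else b
  have he : Function.Injective e := by
    intro c d hcd
    cases c <;> cases d <;> simp_all [e]
  let ι : (H → G → Bool) → (H → G → X) := fun z h g => e (z h g)
  have hι : Continuous ι := by
    refine continuous_pi fun h => continuous_pi fun g => ?_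
    have h1 : Continuous fun z : H → G → Bool => z h g :=
      (continuous_apply g : Continuous fun w : G → Bool => w g).comp
        (continuous_apply h : Continuous fun z : H → G → Bool => z h)
    exact (continuous_of_discreteTopology (f := e)).comp h1
  let : MeasurableSpace Y := borel Y
  have : BorelSpace Y := ⟨rfl⟩
  obtain ⟨j, hj, hji⟩ := MeasurableSpace.measurable_injection_nat_bool_of_countablySeparated Y
  have hJ : ∀ z z' : H → G → Bool,
      Jump H (Jump G (fun x y : X => x = y)) (ι z) (ι z') ↔ R z z' := by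
    intro z z'
    unfold Jump R sh
    refine exists_congr fun k => forall_congr' fun h => exists_congr fun g => ?_
    rw [funext_iff]
    exact forall_congr' fun x => he.eq_iff
  refine no_map (fun z => j (f (ι z))) ?_ ?_ ?_
  · have h1 : @Measurable _ _ (borel _) (borel _) ι := by
      let : MeasurableSpace (H → G → Bool) := borel _
      have : BorelSpace (H → G → Bool) := ⟨rfl⟩
      let : MeasurableSpace (H → G → X) := borel _
      have : BorelSpace (H → G → X) := ⟨rfl⟩
      exact hι.measurable
    exact hj.comp (hf.comp h1)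
  · intro z
    refine ((hF (f (ι z))).image j).mono ?_
    rintro _ ⟨γ, rfl⟩
    refine ⟨f (ι (act γ z)), ?_, rfl⟩
    exact (hred _ _).1 ((hJ _ _).2 (R_act γ z))
  · intro z z' hzz
    have h1 : f (ι z) = f (ι z') := hji hzz
    rw [← hJ, hred, h1, ← hred, hJ]
    refine ⟨1, fun h => ⟨1, ?_⟩⟩
    funext x
    simp [sh]

/-- Single jumps of equality have countable classes. -/
theorem countable_jump (K : Type w) [Group K] [Countable K] (X : Type u) (α : K → X) :
    {β | Jump K (fun x y : X => x = y) α β}.Countable := by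
  refine (countable_range fun k : K => fun h : K => α (k⁻¹ * h)).mono ?_
  rintro β ⟨k, hk⟩
  exact ⟨k, funext hk⟩

/-- **Main result.** For all infinite countable groups `G`, `H`, every Polish space `X` with at least
two points and every countable group `K`, the `H`-jump of the `G`-jump of the equality relation of `X`
is not Borel reducible to the `K`-jump of the equality relation of `X`. -/
theorem result (G H : Type) [Group G] [Group H] [Countable G] [Countable H] [Infinite G] [Infinite H]
    (X : Type) [TopologicalSpace X] [PolishSpace X] [Nontrivial X]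
    (K : Type) [Group K] [Countable K] :
    ¬ BorelReducible (Jump H (Jump G (fun x y : X => x = y))) (Jump K (fun x y : X => x = y)) :=
  not_reducible G H X (K → X) _ (countable_jump K X)

/-- The negative answer to the question in its literal form. -/
theorem negative_answer :
    ¬ (∀ (G H : Type) [Group G] [Group H] [Countable G] [Countable H] (X : Type)
      [TopologicalSpace X] [PolishSpace X] (E : X → X → Prop), Equivalence E →
      ∃ (K : Type) (_ : Group K) (_ : Countable K),
        BorelReducible (Jump H (Jump G E)) (Jump K E) ∧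
        BorelReducible (Jump K E) (Jump H (Jump G E))) := by
  intro hQ
  obtain ⟨K, iK, iKc, h2, -⟩ := hQ (Multiplicative ℤ) (Multiplicative ℤ) Bool (fun x y => x = y)
    ⟨fun _ => rfl, fun h => h.symm, fun h h' => h.trans h'⟩
  exact result (Multiplicative ℤ) (Multiplicative ℤ) Bool K h2

end Pool.Agent.Results.MP_9b97c3_lc.DoubleJump
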